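import Pool.Agent.H41.HKB.Targets

/-!
# Row CPY of hkb_modules: a good tuple gives a copy of `H_k`
-/

set_option autoImplicit false

namespace Pool.Agent.H25.HKB

open Finset Pool.Agent.H41.HKB Pool.Agent.H42.BD
open scoped Classical

/-- private connectors for one block -/
lemma block {k T : ℕ} {ε ε' : ℝ} {V : Type} [Fintype V] {G : SimpleGraph V} {x : V}
    {ρ : Fin k → Fin k} {y : Fin k → V} (hBLK : T_BLK)
    (h3 : ∀ i j, ρ i ≠ ρ j → Lt T G (y i) (y j) ∧ (Np T ε ε' G x (y i) (y j)).Nonempty ∧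
      bl T ε ε' G x ρ y i j ≤ 1) (c d : Fin k) (hcd : c ≠ d) :
    ∃ ψ : Fin k × Fin k → V,
      (∀ q, ρ q.1 = c → ρ q.2 = d → ψ q ∈ Np T ε ε' G x (y q.1) (y q.2)) ∧
      (∀ q q', ρ q.1 = c → ρ q.2 = d → ρ q'.1 = c → ρ q'.2 = d → ψ q = ψ q' → q = q') := by
  by_cases hne : ∃ q0 : Fin k × Fin k, ρ q0.1 = c ∧ ρ q0.2 = d
  · obtain ⟨q0, h0c, h0d⟩ := hne
    have hd0 : ρ q0.1 ≠ ρ q0.2 := by rw [h0c, h0d]; exact hcd
    have hbl := (h3 q0.1 q0.2 hd0).2.2
    have hsum : ∑ q : {q : Fin k × Fin k // ρ q.1 = c ∧ ρ q.2 = d},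
        1 / ((Np T ε ε' G x (y q.1.1) (y q.1.2)).card : ℝ) ≤ 1 := by
      have e1 := Finset.sum_subtype (F := inferInstance) (univ.filter
        (fun q : Fin k × Fin k => ρ q.1 = c ∧ ρ q.2 = d))
        (p := fun q : Fin k × Fin k => ρ q.1 = c ∧ ρ q.2 = d) (by intro q; simp)
        (fun q : Fin k × Fin k => 1 / ((Np T ε ε' G x (y q.1) (y q.2)).card : ℝ))
      rw [← e1, Finset.sum_filter, Fintype.sum_prod_type]
      unfold bl wp at hbl
      rw [h0c, h0d] at hbl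
      exact hbl
    obtain ⟨φ, hφi, hφ⟩ := hBLK {q : Fin k × Fin k // ρ q.1 = c ∧ ρ q.2 = d} V
      (fun q => Np T ε ε' G x (y q.1.1) (y q.1.2)) (by
        intro q
        refine (h3 q.1.1 q.1.2 ?_).2.1
        rw [q.2.1, q.2.2]; exact hcd) hsum
    refine ⟨fun q => if h : ρ q.1 = c ∧ ρ q.2 = d then φ ⟨q, h⟩ else x, ?_, ?_⟩
    · intro q h1 h2
      have h : ρ q.1 = c ∧ ρ q.2 = d := ⟨h1, h2⟩
      simp only [dif_pos h]
      exact hφ ⟨q, h⟩
    · intro q q' h1 h2 h1' h2' he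
      have h : ρ q.1 = c ∧ ρ q.2 = d := ⟨h1, h2⟩
      have h' : ρ q'.1 = c ∧ ρ q'.2 = d := ⟨h1', h2'⟩
      simp only [dif_pos h, dif_pos h'] at he
      have := hφi he
      exact congrArg Subtype.val this
  · refine ⟨fun _ => x, ?_, ?_⟩
    · intro q h1 h2
      exact absurd ⟨q, h1, h2⟩ hne
    · intro q q' h1 h2
      exact absurd ⟨q, h1, h2⟩ hne

theorem pf_CPY (hEMB : T_EMB) (hBLK : T_BLK) : T_CPY := by
  intro k T ε ε' V _ G x ρ y hkε hy hbad
  unfold YS at hy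
  rw [mem_filter] at hy
  obtain ⟨-, h1, h2, h3⟩ := hy
  have hinj : Function.Injective y := by
    intro i j hij
    by_contra hne
    by_cases hr : ρ i = ρ j
    · exact (h2 i j hne hr).1 hij
    · exact (h3 i j hr).1.1 hij
  have : Nonempty V := ⟨x⟩
  choose! Ψ hΨ1 hΨ2 using fun (c d : Fin k) => block (ρ := ρ) (y := y) hBLK h3 c d
  set Q : Pr k → Fin k × Fin k → Prop := fun p q =>
    p.1 = {q.1, q.2} ∧ ρ q.1 < ρ q.2 with hQ
  set z : Pr k → V := fun p => if h : ∃ q, Q p q then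
    Ψ (ρ h.choose.1) (ρ h.choose.2) h.choose else x with hz
  -- the specification of `z`
  have hspec : ∀ p : Pr k, (∃ q, Q p q) → ∃ q, Q p q ∧ z p = Ψ (ρ q.1) (ρ q.2) q := by
    intro p h
    refine ⟨h.choose, h.choose_spec, ?_⟩
    simp only [hz, dif_pos h]
  have hmem : ∀ p : Pr k, (∃ q, Q p q) → ∃ q, Q p q ∧ z p = Ψ (ρ q.1) (ρ q.2) q ∧
      z p ∈ Np T ε ε' G x (y q.1) (y q.2) := by
    intro p h
    obtain ⟨q, hq, hzq⟩ := hspec p h
    refine ⟨q, hq, hzq, ?_⟩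
    rw [hzq]
    exact hΨ1 _ _ (ne_of_lt hq.2) q rfl rfl
  have hadj : ∀ (q : Fin k × Fin k) (v : V), v ∈ Np T ε ε' G x (y q.1) (y q.2) →
      G.Adj v (y q.1) ∧ G.Adj v (y q.2) := by
    intro q v hv
    rw [mem_Np] at hv
    exact ⟨(mem_cn.mp (Sp_sub hv.2.1)).2, (mem_cn.mp (Sp_sub hv.2.2)).2⟩
  refine hEMB k V G x y (univ.filter (fun p => ∃ q, Q p q)) z hinj h1 ?_ ?_ ?_
  · intro p hp
    rw [mem_filter] at hp
    obtain ⟨q, hq, -, hzN⟩ := hmem p hp.2
    have hzN' := mem_Np.mp hzN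
    refine ⟨hzN'.1.1, ?_, ?_⟩
    · intro i hi
      apply hzN'.1.2.1
      rw [hi]
      exact h1 i
    · intro i hi
      rw [hq.1, mem_insert, mem_singleton] at hi
      have ha := hadj q _ hzN
      rcases hi with rfl | rfl
      · exact ha.1.symm
      · exact ha.2.symm
  · intro p hp p' hp' he
    rw [mem_filter] at hp hp'
    obtain ⟨q, hq, hzq, hzN⟩ := hmem p hp.2
    obtain ⟨q', hq', hzq', hzN'⟩ := hmem p' hp'.2
    by_cases hsame : ρ q'.1 = ρ q.1 ∧ ρ q'.2 = ρ q.2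
    · have : q = q' := by
        refine hΨ2 (ρ q.1) (ρ q.2) (ne_of_lt hq.2) q q' rfl rfl hsame.1 hsame.2 ?_
        rw [← hzq, he, hzq', hsame.1, hsame.2]
      apply Subtype.ext
      rw [hq.1, hq'.1, this]
    · exfalso
      have hm : ∃ m, (m = q'.1 ∨ m = q'.2) ∧ ρ m ≠ ρ q.1 ∧ ρ m ≠ ρ q.2 := by
        by_contra hcon
        push Not at hcon
        have a1 := hcon q'.1 (Or.inl rfl)
        have a2 := hcon q'.2 (Or.inr rfl)
        have b1 := hq.2
        have b2 := hq'.2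
        apply hsame
        by_cases c1 : ρ q'.1 = ρ q.1
        · refine ⟨c1, ?_⟩
          by_cases c2 : ρ q'.2 = ρ q.1
          · rw [c1, c2] at b2
            exact absurd b2 (lt_irrefl _)
          · exact a2 c2
        · have c3 := a1 c1
          by_cases c2 : ρ q'.2 = ρ q.1
          · rw [c3, c2] at b2
            exact absurd (lt_trans b1 b2) (lt_irrefl _)
          · rw [c3, a2 c2] at b2
            exact absurd b2 (lt_irrefl _)
      obtain ⟨m, hm1, hm2, hm3⟩ := hm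
      apply hbad
      refine ⟨q.1, q.2, m, ne_of_lt hq.2, hm2, hm3, z p, hzN, ?_⟩
      have ha := hadj q' _ hzN'
      rw [he]
      rcases hm1 with rfl | rfl
      · exact ha.1
      · exact ha.2
  · intro i j hij hL
    have hr : ρ i = ρ j := by
      by_contra hr
      have hL' := hL ⟨{i, j}, card_pair hij⟩
      apply hL'
      · rw [mem_filter]
        refine ⟨mem_univ _, ?_⟩
        rcases lt_or_gt_of_ne hr with h | h
        · exact ⟨(i, j), rfl, h⟩
        · exact ⟨(j, i), Finset.pair_comm _ _, h⟩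
      · simp
    have hD := (h2 i j hij hr).2
    have : (hk k : ℝ) ≤ (cd G (y i) (y j) : ℝ) := le_trans hkε hD
    exact_mod_cast this

end Pool.Agent.H25.HKB
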