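import Pool.Agent.H41.HKB.Targets

/-!
# Row TPL of hkb_modules: the template of a good connector
-/

set_option autoImplicit false

namespace Pool.Agent.H25.HKB

open Finset Pool.Agent.H41.HKB Pool.Agent.H42.BD
open scoped Classical

/-- a sum over indices is at most the sum over a set that contains the values -/
lemma sum_index_le {k : ℕ} {V : Type} (y : Fin k → V) (hy : Function.Injective y)
    (A : Fin k → Prop) (K : Finset V) (hK : ∀ a, A a → y a ∈ K) (F : V → ℝ)
    (hF : ∀ v, 0 ≤ F v) :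
    ∑ a, (if A a then F (y a) else 0) ≤ ∑ v ∈ K, F v := by
  rw [← Finset.sum_filter, ← Finset.sum_image (f := F) (g := y) (fun a _ b _ h => hy h)]
  refine Finset.sum_le_sum_of_subset_of_nonneg ?_ (fun v _ _ => hF v)
  intro v hv
  rw [mem_image] at hv
  obtain ⟨a, ha, rfl⟩ := hv
  rw [mem_filter] at ha
  exact hK a ha.2

lemma p_bound {t : ℝ} (ht : 3 ≤ t) :
    (2 / 3) / t * (1 + (2 / 3) / t * (t ^ 2 - 2)) ≤ 2 / 3 := by
  have ht0 : 0 < t := by linarith
  have e : (2 / 3) / t * (1 + (2 / 3) / t * (t ^ 2 - 2)) =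
      (2 / 3 * t + 4 / 9 * (t ^ 2 - 2)) / t ^ 2 := by
    field_simp
    ring
  rw [e, div_le_iff₀ (by positivity)]
  nlinarith

theorem pf_TPL (hSEL : T_SEL) (hHVY : T_HVY) : T_TPL := by
  intro k T ε ε' V _ G x z hk9 hfree hhk hgood
  set S := Sp T ε G x z with hS
  set t : ℝ := Real.sqrt k with ht
  have hk9r : (9 : ℝ) ≤ k := by exact_mod_cast hk9
  have ht2 : t ^ 2 = k := Real.sq_sqrt (by positivity)
  have ht3 : 3 ≤ t := by
    rw [ht]
    apply Real.le_sqrt_of_sq_le
    linarith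
  have ht0 : 0 < t := by linarith
  set p : ℝ := (2 / 3) / t with hp
  have hp0 : 0 ≤ p := by positivity
  have hp1 : p ≤ 1 := by
    rw [hp, div_le_one ht0]
    linarith
  have hsub : S ⊆ nb G x := by
    intro v hv
    have := mem_cn.mp (Sp_sub hv)
    exact mem_nb.mpr this.1
  have hclass : ∀ a ∈ S, (S.filter (Sm ε G a)).card ≤ k - 1 := by
    intro a ha
    by_contra hcon
    have hge : k ≤ (S.filter (Sm ε G a)).card := by omega
    obtain ⟨K, hKsub, hKc⟩ := Finset.exists_subset_card_eq hge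
    have hKS : ∀ v ∈ K, v ∈ S ∧ Sm ε G a v := fun v hv => by
      have := hKsub hv
      rwa [mem_filter] at this
    obtain ⟨u, hu, v, hv, huv, hcd⟩ := hHVY k V G hfree x K
      (fun v hv => hsub (hKS v hv).1) hKc
    have hs : Sm ε G u v := Sp_trans (hKS u hu).1 ha (hKS v hv).1 (hKS u hu).2.symm (hKS v hv).2
    rcases hs with h | h
    · exact huv h
    · have h1 := h.2
      have h2 : (cd G u v : ℝ) < hk k := by exact_mod_cast hcd
      linarith
  obtain ⟨K, hKS, hblock, hcard⟩ := hSEL V S (Sm ε G) (k - 1) (wp T ε ε' G x) p hp0 hp1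
    (by omega) (wp_nonneg T ε ε' G x) (wp_comm T ε ε' G x) hclass
    (fun a _ => Sm.refl a) (fun a _ b _ h => h.symm)
    (fun a ha b hb c hc h1 h2 => Sp_trans ha hb hc h1 h2)
  have hKk : k ≤ K.card := by
    have hW : (1 / 2) * ∑ a ∈ S, ∑ b ∈ S, (if Sm ε G a b then 0 else wp T ε ε' G x a b) =
        Wz T ε ε' G x z := rfl
    rw [hW] at hcard
    have hW0 := Wz_nonneg T ε ε' G x z
    have hcast : ((k - 1 : ℕ) : ℝ) - 1 = t ^ 2 - 2 := by
      rw [Nat.cast_sub (by omega), ht2]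
      push_cast
      ring
    rw [hcast] at hcard
    have hpb : p * (1 + p * (t ^ 2 - 2)) ≤ 2 / 3 := p_bound ht3
    have h1 : p ^ 2 * (1 + p * (t ^ 2 - 2)) * Wz T ε ε' G x z ≤
        p * (2 / 3) * Wz T ε ε' G x z := by
      apply mul_le_mul_of_nonneg_right _ hW0
      have : p ^ 2 * (1 + p * (t ^ 2 - 2)) = p * (p * (1 + p * (t ^ 2 - 2))) := by ring
      rw [this]
      exact mul_le_mul_of_nonneg_left hpb hp0
    have h2 : p * ((3 / 2) * t ^ 3) ≤ p * ((S.card : ℝ) - 2 / 3 * Wz T ε ε' G x z) :=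
      mul_le_mul_of_nonneg_left hgood hp0
    have h3 : p * ((3 / 2) * t ^ 3) = k := by
      rw [← ht2, hp]
      field_simp
    have h4 : (k : ℝ) ≤ K.card := by
      rw [← h3]
      calc p * ((3 / 2) * t ^ 3) ≤ p * ((S.card : ℝ) - 2 / 3 * Wz T ε ε' G x z) := h2
        _ = p * S.card - p * (2 / 3) * Wz T ε ε' G x z := by ring
        _ ≤ p * S.card - p ^ 2 * (1 + p * (t ^ 2 - 2)) * Wz T ε ε' G x z := by linarith
        _ ≤ _ := hcard
    exact_mod_cast h4
  obtain ⟨K', hK'sub, hK'c⟩ := Finset.exists_subset_card_eq hKk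
  set e := K'.equivFinOfCardEq hK'c with he
  have hyK' : ∀ i : Fin k, ((e.symm i : K') : V) ∈ K' := fun i => (e.symm i).2
  have hinj : Function.Injective (fun i : Fin k => ((e.symm i : K') : V)) := by
    intro i j hij
    exact e.symm.injective (Subtype.ext hij)
  refine ⟨fun i => ((e.symm i : K') : V), hinj, fun i => hKS (hK'sub (hyK' i)), ?_⟩
  intro i j hij
  set y : Fin k → V := fun i => ((e.symm i : K') : V) with hy
  have hyK : ∀ i, y i ∈ K := fun i => hK'sub (hyK' i)
  have hb := hblock (y i) (hyK i) (y j) (hyK j) hij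
  refine le_trans ?_ hb.le
  have hF0 : ∀ v, 0 ≤ ∑ b' ∈ K.filter (Sm ε G (y j)), wp T ε ε' G x v b' :=
    fun v => Finset.sum_nonneg (fun b _ => wp_nonneg _ _ _ _ _ _ _)
  have h1 : ∀ a : Fin k, ∑ b : Fin k, (if Sm ε G (y a) (y i) ∧ Sm ε G (y b) (y j) then
      wp T ε ε' G x (y a) (y b) else 0) ≤
      (if Sm ε G (y a) (y i) then
        ∑ b' ∈ K.filter (Sm ε G (y j)), wp T ε ε' G x (y a) b' else 0) := by
    intro a
    by_cases ha : Sm ε G (y a) (y i)
    · rw [if_pos ha]
      have e1 : ∀ b : Fin k, (if Sm ε G (y a) (y i) ∧ Sm ε G (y b) (y j) then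
          wp T ε ε' G x (y a) (y b) else 0) =
          (if Sm ε G (y b) (y j) then wp T ε ε' G x (y a) (y b) else 0) := by
        intro b
        by_cases hb' : Sm ε G (y b) (y j)
        · rw [if_pos ⟨ha, hb'⟩, if_pos hb']
        · rw [if_neg (fun h => hb' h.2), if_neg hb']
      rw [Finset.sum_congr rfl (fun b _ => e1 b)]
      refine sum_index_le y hinj (fun b => Sm ε G (y b) (y j)) _ ?_
        (fun b' => wp T ε ε' G x (y a) b') (fun v => wp_nonneg _ _ _ _ _ _ _)
      intro b hb'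
      rw [mem_filter]
      exact ⟨hyK b, hb'.symm⟩
    · rw [if_neg ha]
      apply le_of_eq
      apply Finset.sum_eq_zero
      intro b _
      rw [if_neg (fun h => ha h.1)]
  refine le_trans (Finset.sum_le_sum (fun a _ => h1 a)) ?_
  refine sum_index_le y hinj (fun a => Sm ε G (y a) (y i)) _ ?_
    (fun v => ∑ b' ∈ K.filter (Sm ε G (y j)), wp T ε ε' G x v b') hF0
  intro a ha
  rw [mem_filter]
  exact ⟨hyK a, ha.symm⟩

end Pool.Agent.H25.HKB
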